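import Pool.Agent.LS.FIN

/-!
# Self-dual Leonard systems with integral normalized intersection numbers (MP_963a96_al)

Complete answer to Q1. All definitions used in the statement are in `Pool/Agent/LS/Defs.lean`.
-/

namespace Pool.Agent.Results.MP_963a96_al.Classification

open LS

/-- For every diameter `d`:
(1) a Leonard system `Φ` in `Mat_{d+1}(ℝ)` is self-dual with all `N^h_{ij}` nonnegative integers if
and only if it is isomorphic to a standard system `A = ξ T + ζ`, `A^* = ξ diag(lam) + ζ`,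
`θ_i = θ^*_i = ξ lam_i + ζ`, `ξ ≠ 0`, with `(α, b, lam)` in the list `Item`;
(2) for every member of the list and all `ξ ≠ 0`, `ζ` this standard system exists;
(3) for `d ≥ 1` isomorphic standard systems of the list have the same `α, b, lam, ξ, ζ`. -/
theorem result (d : ℕ) :
    (∀ Φ : LeonardSystem d, (Φ.SelfDual ∧ Φ.IntegralN) ↔
      ∃ (α b : ℕ → ℤ) (lam : ℕ → ℝ), Item d α b lam ∧ ∃ ξ ζ : ℝ, ξ ≠ 0 ∧
        ∃ Ψ : LeonardSystem d, IsStd Ψ α b lam ξ ζ ∧ LeonardSystem.Iso Φ Ψ) ∧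
    (∀ (α b : ℕ → ℤ) (lam : ℕ → ℝ), Item d α b lam → ∀ ξ ζ : ℝ, ξ ≠ 0 →
      ∃ Ψ : LeonardSystem d, IsStd Ψ α b lam ξ ζ) ∧
    (1 ≤ d → ∀ (α b : ℕ → ℤ) (lam : ℕ → ℝ) (ξ ζ : ℝ) (α' b' : ℕ → ℤ) (lam' : ℕ → ℝ) (ξ' ζ' : ℝ)
      (Ψ Ψ' : LeonardSystem d), Item d α b lam → Item d α' b' lam' → ξ ≠ 0 → ξ' ≠ 0 →
      IsStd Ψ α b lam ξ ζ → IsStd Ψ' α' b' lam' ξ' ζ' → LeonardSystem.Iso Ψ Ψ' →
      ξ = ξ' ∧ ζ = ζ' ∧ (∀ i ≤ d, α i = α' i) ∧ (∀ i, 1 ≤ i → i ≤ d → b i = b' i) ∧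
        (∀ i ≤ d, lam i = lam' i)) :=
  ⟨(classification d).1, (classification d).2,
    fun hd _ _ _ _ _ _ _ _ _ _ _ _ hI hI' hξ hξ' h h' hiso =>
      distinct hd hI hI' hξ hξ' h h' hiso⟩

end Pool.Agent.Results.MP_963a96_al.Classification
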